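import Mathlib

open Finset

namespace Pool.Agent.Results.MP_af65a2_co.UnequalCycles

/-! ### Scheduling of the cycles of a permutation -/

section Schedule

variable {C : Type} [Fintype C] [LinearOrder C] (len : C → ℕ)

def R0 : ℕ := ∑ c, len c / 2

def oddN : ℕ := (univ.filter fun c => len c % 2 = 1).card

def start (c : C) : ℕ :=
  if len c % 2 = 1 then 0 else R0 len + ∑ d ∈ univ.filter (· < c), len d / 2

def act (τ : ℕ) : Finset C :=
  univ.filter fun c => start len c ≤ τ ∧ τ < start len c + len c / 2

def q (τ : ℕ) : ℕ := (act len τ).card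

def Q (τ : ℕ) : ℕ := ∑ s ∈ range τ, q len s

def pp (τ : ℕ) (c : C) : ℕ := ((act len τ).filter (· < c)).card

def mid (c : C) : ℕ := ((univ.filter fun c => len c % 2 = 1).filter (· < c)).card

theorem mem_act {τ : ℕ} {c : C} :
    c ∈ act len τ ↔ start len c ≤ τ ∧ τ < start len c + len c / 2 := by
  simp [act]

theorem start_odd {c : C} (h : len c % 2 = 1) : start len c = 0 := by
  simp [start, h]

theorem start_even {c : C} (h : ¬ len c % 2 = 1) :
    start len c = R0 len + ∑ d ∈ univ.filter (· < c), len d / 2 := by
  simp [start, h]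

omit [LinearOrder C] in
theorem half_le (c : C) : len c / 2 ≤ R0 len :=
  Finset.single_le_sum (f := fun c => len c / 2) (fun _ _ => Nat.zero_le _) (mem_univ c)

theorem start_bound (c : C) : start len c + len c / 2 ≤ 2 * R0 len := by
  by_cases h : len c % 2 = 1
  · rw [start_odd len h]
    have := half_le len c
    omega
  · rw [start_even len h]
    have h1 : ∑ d ∈ insert c (univ.filter (· < c)), len d / 2 ≤ R0 len :=
      Finset.sum_le_sum_of_subset (subset_univ _)
    rw [Finset.sum_insert (by simp)] at h1
    omega

theorem act_small {τ : ℕ} (hτ : τ < R0 len) {c : C} (hc : c ∈ act len τ) : len c % 2 = 1 := by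
  by_contra h
  rw [mem_act, start_even len h] at hc
  omega

theorem act_big {τ : ℕ} (hτ : R0 len ≤ τ) {c : C} (hc : c ∈ act len τ) : ¬ len c % 2 = 1 := by
  intro h
  rw [mem_act, start_odd len h] at hc
  have := half_le len c
  omega

theorem act_big_unique {τ : ℕ} (hτ : R0 len ≤ τ) {c d : C} (hc : c ∈ act len τ)
    (hd : d ∈ act len τ) : c = d := by
  have key : ∀ {c d : C}, c ∈ act len τ → d ∈ act len τ → ¬ c < d := by
    intro c d hc hd hlt
    have h1 := act_big len hτ hc
    have h2 := act_big len hτ hd
    rw [mem_act, start_even len h1] at hc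
    rw [mem_act, start_even len h2] at hd
    have h3 : ∑ e ∈ insert c (univ.filter (· < c)), len e / 2 ≤
        ∑ e ∈ univ.filter (· < d), len e / 2 := by
      apply Finset.sum_le_sum_of_subset
      intro e he
      rw [mem_insert, mem_filter] at he
      rw [mem_filter]
      refine ⟨mem_univ _, ?_⟩
      rcases he with rfl | he
      · exact hlt
      · exact he.2.trans hlt
    rw [Finset.sum_insert (by simp)] at h3
    omega
  rcases lt_trichotomy c d with h | h | h
  · exact absurd h (key hc hd)
  · exact h
  · exact absurd h (key hd hc)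

theorem q_le (τ : ℕ) : q len τ ≤ max 1 (oddN len) := by
  rcases Nat.lt_or_ge τ (R0 len) with h | h
  · refine le_trans (Finset.card_le_card ?_) (le_max_right _ _)
    intro c hc
    rw [mem_filter]
    exact ⟨mem_univ _, act_small len h hc⟩
  · refine le_trans ?_ (le_max_left _ _)
    exact Finset.card_le_one.mpr fun a ha b hb => act_big_unique len h ha hb

theorem act_succ_subset {τ : ℕ} {c : C} (h1 : c ∈ act len τ) (h2 : c ∈ act len (τ + 1)) :
    act len (τ + 1) ⊆ act len τ := by
  intro d hd
  rcases Nat.lt_or_ge (τ + 1) (R0 len) with h | h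
  · have h3 := act_small len h hd
    rw [mem_act, start_odd len h3] at hd ⊢
    omega
  · have := act_big_unique len h h2 hd
    rw [← this]
    exact h1

theorem start_eq {τ : ℕ} {c d : C} (hc : c ∈ act len τ) (hd : d ∈ act len τ) :
    start len c = start len d := by
  rcases Nat.lt_or_ge τ (R0 len) with h | h
  · rw [start_odd len (act_small len h hc), start_odd len (act_small len h hd)]
  · rw [act_big_unique len h hc hd]

theorem pp_lt {τ : ℕ} {c : C} (hc : c ∈ act len τ) : pp len τ c < q len τ := by
  apply Finset.card_lt_card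
  rw [Finset.ssubset_iff_of_subset (filter_subset _ _)]
  exact ⟨c, hc, by simp⟩

theorem pp_inj {τ : ℕ} {c d : C} (hc : c ∈ act len τ) (hd : d ∈ act len τ)
    (h : pp len τ c = pp len τ d) : c = d := by
  have key : ∀ {c d : C}, c ∈ act len τ → c < d → pp len τ c < pp len τ d := by
    intro c d hc hlt
    apply Finset.card_lt_card
    rw [Finset.ssubset_iff_of_subset]
    · exact ⟨c, by simp [hc, hlt], by simp⟩
    · intro e he
      rw [mem_filter] at he ⊢
      exact ⟨he.1, he.2.trans hlt⟩
  rcases lt_trichotomy c d with h' | h' | h'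
  · exact absurd h (key hc h').ne
  · exact h'
  · exact absurd h (key hd h').ne'

theorem mid_lt {c : C} (hc : len c % 2 = 1) : mid len c < oddN len := by
  apply Finset.card_lt_card
  rw [Finset.ssubset_iff_of_subset (filter_subset _ _)]
  exact ⟨c, by simp [hc], by simp⟩

theorem mid_inj {c d : C} (hc : len c % 2 = 1) (hd : len d % 2 = 1)
    (h : mid len c = mid len d) : c = d := by
  have key : ∀ {c d : C}, len c % 2 = 1 → c < d → mid len c < mid len d := by
    intro c d hc hlt
    apply Finset.card_lt_card
    rw [Finset.ssubset_iff_of_subset]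
    · exact ⟨c, by simp [hc, hlt], by simp⟩
    · intro e he
      rw [mem_filter] at he ⊢
      exact ⟨he.1, he.2.trans hlt⟩
  rcases lt_trichotomy c d with h' | h' | h'
  · exact absurd h (key hc h').ne
  · exact h'
  · exact absurd h (key hd h').ne'

theorem pp_step1 {τ : ℕ} {c : C} (h1 : c ∈ act len τ) (h2 : c ∈ act len (τ + 1)) :
    pp len (τ + 1) c ≤ pp len τ c :=
  Finset.card_le_card (Finset.filter_subset_filter _ (act_succ_subset len h1 h2))

theorem pp_step2 {τ : ℕ} {c : C} (h1 : c ∈ act len τ) (h2 : c ∈ act len (τ + 1)) :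
    pp len τ c + q len (τ + 1) ≤ q len τ + pp len (τ + 1) c := by
  have e1 := Finset.card_filter_add_card_filter_not (s := act len τ) (· < c)
  have e2 := Finset.card_filter_add_card_filter_not (s := act len (τ + 1)) (· < c)
  have e3 : ((act len (τ + 1)).filter fun d => ¬ d < c).card ≤
      ((act len τ).filter fun d => ¬ d < c).card :=
    Finset.card_le_card (Finset.filter_subset_filter _ (act_succ_subset len h1 h2))
  unfold pp q
  omega

theorem Q_succ (τ : ℕ) : Q len (τ + 1) = Q len τ + q len τ := Finset.sum_range_succ _ _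

theorem Q_mono {σ τ : ℕ} (h : σ ≤ τ) : Q len σ ≤ Q len τ :=
  Finset.sum_le_sum_of_subset (Finset.range_subset_range.mpr h)

theorem Q_top : Q len (2 * R0 len) = R0 len := by
  unfold Q q act
  simp_rw [Finset.card_filter]
  rw [Finset.sum_comm]
  unfold R0
  refine Finset.sum_congr rfl fun c _ => ?_
  rw [← Finset.card_filter]
  have hb := start_bound len c
  unfold R0 at hb
  have : ((range (2 * ∑ c, len c / 2)).filter fun τ => start len c ≤ τ ∧
      τ < start len c + len c / 2) = Finset.Ico (start len c) (start len c + len c / 2) := by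
    ext τ
    rw [mem_filter, mem_range, mem_Ico]
    constructor
    · exact fun h => h.2
    · intro h
      exact ⟨by omega, h⟩
  rw [this, Nat.card_Ico]
  omega

/-- The level of a pair of positions. -/
def lev (side : Bool) (τ : ℕ) (c : C) : ℕ :=
  Q len τ + if side then pp len τ c else q len τ - 1 - pp len τ c

theorem lev_ge (side : Bool) (τ : ℕ) (c : C) : Q len τ ≤ lev len side τ c := by
  unfold lev; omega

theorem lev_lt (side : Bool) {τ : ℕ} {c : C} (hc : c ∈ act len τ) :
    lev len side τ c < Q len (τ + 1) := by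
  have := pp_lt len hc
  rw [Q_succ]
  unfold lev
  split_ifs <;> omega

theorem lev_lt_R0 (side : Bool) {τ : ℕ} {c : C} (hc : c ∈ act len τ) :
    lev len side τ c < R0 len := by
  have h1 := lev_lt len side hc
  have h2 : τ + 1 ≤ 2 * R0 len := by
    rw [mem_act] at hc
    have := start_bound len c
    omega
  have h3 := Q_mono len h2
  rw [Q_top] at h3
  omega

theorem lev_tau {side side' : Bool} {τ τ' : ℕ} {c d : C} (hc : c ∈ act len τ)
    (hd : d ∈ act len τ') (h : lev len side τ c = lev len side' τ' d) : τ = τ' := by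
  by_contra hne
  rcases Nat.lt_or_gt_of_ne hne with hlt | hlt
  · have h1 := lev_lt len side hc
    have h2 := lev_ge len side' τ' d
    have h3 := Q_mono len (show τ + 1 ≤ τ' from hlt)
    omega
  · have h1 := lev_lt len side' hd
    have h2 := lev_ge len side τ c
    have h3 := Q_mono len (show τ' + 1 ≤ τ from hlt)
    omega

/-- The label at round `r` on the given side of the cycle `c`. -/
def g (side : Bool) (c : C) (r : ℕ) : ℕ :=
  if side = decide (r % 2 = 0) then R0 len + oddN len + 1 + lev len side (start len c + r) c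
  else R0 len - lev len side (start len c + r) c

theorem mem_act_of {c : C} {r : ℕ} (hr : r < len c / 2) : c ∈ act len (start len c + r) := by
  rw [mem_act]; omega

theorem g_step (side : Bool) {c : C} {r : ℕ} (hr : r + 1 < len c / 2) :
    2 * R0 len + oddN len + 1 ≤ g len side c r + g len side c (r + 1) + max 1 (oddN len) ∧
    g len side c r + g len side c (r + 1) ≤ 2 * R0 len + oddN len + 1 + max 1 (oddN len) := by
  have m1 := mem_act_of len (show r < len c / 2 by omega)
  have m2 : c ∈ act len (start len c + r + 1) := by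
    have := mem_act_of len hr
    rwa [← add_assoc] at this
  have l1 := lev_lt_R0 len side m1
  have l2 := lev_lt_R0 len side m2
  have p1 := pp_lt len m1
  have p2 := pp_lt len m2
  have s1 := pp_step1 len m1 m2
  have s2 := pp_step2 len m1 m2
  have q1 := q_le len (start len c + r)
  have e := Q_succ len (start len c + r)
  have d1 : lev len side (start len c + r) c ≤ lev len side (start len c + r + 1) c := by
    unfold lev
    split_ifs <;> omega
  have d2 : lev len side (start len c + r + 1) c ≤
      lev len side (start len c + r) c + max 1 (oddN len) := by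
    unfold lev
    split_ifs <;> omega
  unfold g
  rw [← add_assoc]
  rcases Nat.mod_two_eq_zero_or_one r with h | h
  · have h' : (r + 1) % 2 = 1 := by omega
    rw [h, h']
    cases side
    · rw [if_neg (by decide), if_pos (by decide)]; omega
    · rw [if_pos (by decide), if_neg (by decide)]; omega
  · have h' : (r + 1) % 2 = 0 := by omega
    rw [h, h']
    cases side
    · rw [if_pos (by decide), if_neg (by decide)]; omega
    · rw [if_neg (by decide), if_pos (by decide)]; omega

theorem g_cross {c : C} {r : ℕ} (hr : r < len c / 2) :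
    2 * R0 len + oddN len + 1 ≤ g len true c r + g len false c r + max 1 (oddN len) ∧
    g len true c r + g len false c r ≤ 2 * R0 len + oddN len + 1 + max 1 (oddN len) := by
  have m1 := mem_act_of len hr
  have l1 := lev_lt_R0 len true m1
  have l2 := lev_lt_R0 len false m1
  have p1 := pp_lt len m1
  have q1 := q_le len (start len c + r)
  have d1 : lev len true (start len c + r) c ≤
      lev len false (start len c + r) c + max 1 (oddN len) := by
    unfold lev
    simp only [if_true, Bool.false_eq_true, if_false]
    omega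
  have d2 : lev len false (start len c + r) c ≤
      lev len true (start len c + r) c + max 1 (oddN len) := by
    unfold lev
    simp only [if_true, Bool.false_eq_true, if_false]
    omega
  unfold g
  rcases Nat.mod_two_eq_zero_or_one r with h | h
  · rw [h]
    rw [if_pos (by decide), if_neg (by decide)]; omega
  · rw [h]
    rw [if_neg (by decide), if_pos (by decide)]; omega

/-- At time `0` exactly the odd cycles are active. -/
theorem act_zero {c : C} (hc : len c % 2 = 1) (hlen : ∀ c, len c ≠ 1) :
    act len 0 = univ.filter fun c => len c % 2 = 1 := by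
  have hR : 0 < R0 len := by
    have := half_le len c
    have := hlen c
    omega
  ext d
  rw [mem_act, mem_filter]
  constructor
  · intro h
    refine ⟨mem_univ _, ?_⟩
    by_contra hd
    rw [start_even len hd] at h
    omega
  · rintro ⟨_, h⟩
    rw [start_odd len h]
    have := hlen d
    omega

theorem g_mid {c : C} (hc : len c % 2 = 1) (hlen : ∀ c, len c ≠ 1) :
    (R0 len + oddN len - mid len c) + g len true c 0 = 2 * R0 len + oddN len + 1 + oddN len ∧
    (R0 len + oddN len - mid len c) + g len false c 0 + oddN len =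
      2 * R0 len + oddN len + 1 := by
  have h0 := act_zero len hc hlen
  have h1 : pp len 0 c = mid len c := by
    unfold pp mid
    rw [h0]
  have h2 : q len 0 = oddN len := by
    unfold q oddN
    rw [h0]
  have h3 := mid_lt len hc
  have h4 : Q len 0 = 0 := by simp [Q]
  have h5 : c ∈ act len 0 := by rw [h0]; simp [hc]
  have l2 := lev_lt_R0 len false h5
  unfold g
  rw [start_odd len hc]
  rw [if_pos (by decide), if_neg (by decide)]
  unfold lev at l2 ⊢
  simp only [if_true, Bool.false_eq_true, if_false, add_zero, h1, h2, h4] at l2 ⊢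
  omega

theorem g_range (side : Bool) {c : C} {r : ℕ} (hr : r < len c / 2) :
    (R0 len + oddN len + 1 ≤ g len side c r ∧ g len side c r ≤ 2 * R0 len + oddN len) ∨
    (1 ≤ g len side c r ∧ g len side c r ≤ R0 len) := by
  have := lev_lt_R0 len side (mem_act_of len hr)
  unfold g
  split_ifs
  · left; omega
  · right; omega

theorem g_inj {side side' : Bool} {c d : C} {r r' : ℕ} (hr : r < len c / 2)
    (hr' : r' < len d / 2) (h : g len side c r = g len side' d r') :
    side = side' ∧ c = d ∧ r = r' := by
  have m1 := mem_act_of len hr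
  have m2 := mem_act_of len hr'
  have l1 := lev_lt_R0 len side m1
  have l2 := lev_lt_R0 len side' m2
  have key : lev len side (start len c + r) c = lev len side' (start len d + r') d ∧
      (side = decide (r % 2 = 0) ↔ side' = decide (r' % 2 = 0)) := by
    unfold g at h
    split_ifs at h with h1 h2 h2
    · exact ⟨by omega, by simp [h1, h2]⟩
    · omega
    · omega
    · exact ⟨by omega, by simp [h1, h2]⟩
  obtain ⟨k1, k2⟩ := key
  have ht := lev_tau len m1 m2 k1
  have m3 : d ∈ act len (start len c + r) := by rw [ht]; exact m2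
  have hs := start_eq len m1 m3
  have hrr : r = r' := by omega
  subst hrr
  have hside : side = side' := by
    revert k2
    cases side <;> cases side' <;> cases decide (r % 2 = 0) <;> simp
  subst hside
  refine ⟨rfl, ?_, rfl⟩
  rw [← ht] at k1
  apply pp_inj len m1 m3
  have p1 := pp_lt len m1
  have p2 := pp_lt len m3
  unfold lev at k1
  split_ifs at k1 <;> omega

end Schedule


section Abstract

variable {V C : Type} [Fintype V] [Fintype C] [LinearOrder C] (len : C → ℕ)
  (cyc : V → C) (pos : V → ℕ) (s : V → V)

/-- The label of a vertex. -/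
def lab (v : V) : ℕ :=
  if len (cyc v) % 2 = 1 ∧ pos v = 0 then R0 len + oddN len - mid len (cyc v)
  else if pos v - len (cyc v) % 2 < len (cyc v) / 2 then
    g len true (cyc v) (pos v - len (cyc v) % 2)
  else g len false (cyc v) (2 * (len (cyc v) / 2) - 1 - (pos v - len (cyc v) % 2))

omit [Fintype V] in
theorem lab_mid {v : V} (h : len (cyc v) % 2 = 1) (h0 : pos v = 0) :
    lab len cyc pos v = R0 len + oddN len - mid len (cyc v) := by
  unfold lab
  rw [if_pos ⟨h, h0⟩]

omit [Fintype V] in
theorem lab_side {v : V} (hpos : pos v < len (cyc v)) (h : ¬ (len (cyc v) % 2 = 1 ∧ pos v = 0)) :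
    ∃ (side : Bool) (r : ℕ), r < len (cyc v) / 2 ∧ lab len cyc pos v = g len side (cyc v) r ∧
      pos v = len (cyc v) % 2 + if side then r else 2 * (len (cyc v) / 2) - 1 - r := by
  unfold lab
  rw [if_neg h]
  split_ifs with h1
  · refine ⟨true, _, h1, rfl, ?_⟩
    simp only [if_true]
    omega
  · refine ⟨false, _, ?_, rfl, ?_⟩
    · omega
    · simp only [Bool.false_eq_true, if_false]
      omega

omit [Fintype V] in
theorem lab_range {v : V} (hpos : pos v < len (cyc v)) :
    1 ≤ lab len cyc pos v ∧ lab len cyc pos v ≤ 2 * R0 len + oddN len := by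
  by_cases h : len (cyc v) % 2 = 1 ∧ pos v = 0
  · rw [lab_mid len cyc pos h.1 h.2]
    have := mid_lt len h.1
    omega
  · obtain ⟨side, r, hr, h1, _⟩ := lab_side len cyc pos hpos h
    rw [h1]
    rcases g_range len side hr with h2 | h2 <;> omega

omit [Fintype V] in
theorem lab_inj (hpos : ∀ v, pos v < len (cyc v))
    (hinj : ∀ u v, cyc u = cyc v → pos u = pos v → u = v) :
    Function.Injective (lab len cyc pos) := by
  intro u v huv
  by_cases hu : len (cyc u) % 2 = 1 ∧ pos u = 0
  · by_cases hv : len (cyc v) % 2 = 1 ∧ pos v = 0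
    · rw [lab_mid len cyc pos hu.1 hu.2, lab_mid len cyc pos hv.1 hv.2] at huv
      have h1 := mid_lt len hu.1
      have h2 := mid_lt len hv.1
      exact hinj u v (mid_inj len hu.1 hv.1 (by omega)) (by omega)
    · exfalso
      obtain ⟨side, r, hr, h1, _⟩ := lab_side len cyc pos (hpos v) hv
      rw [lab_mid len cyc pos hu.1 hu.2, h1] at huv
      have h2 := mid_lt len hu.1
      rcases g_range len side hr with h3 | h3 <;> omega
  · obtain ⟨side, r, hr, h1, hp⟩ := lab_side len cyc pos (hpos u) hu
    by_cases hv : len (cyc v) % 2 = 1 ∧ pos v = 0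
    · exfalso
      rw [lab_mid len cyc pos hv.1 hv.2, h1] at huv
      have h2 := mid_lt len hv.1
      rcases g_range len side hr with h3 | h3 <;> omega
    · obtain ⟨side', r', hr', h1', hp'⟩ := lab_side len cyc pos (hpos v) hv
      rw [h1, h1'] at huv
      obtain ⟨e1, e2, e3⟩ := g_inj len hr hr' huv
      apply hinj u v e2
      rw [hp, hp', e1, e2, e3]

omit [Fintype V] in
theorem lab_edge (hlen : ∀ c, len c ≠ 1) (hpos : ∀ v, pos v < len (cyc v))
    (hcyc : ∀ v, cyc (s v) = cyc v)
    (hstep : ∀ v, pos (s v) = if pos v + 1 = len (cyc v) then 0 else pos v + 1) (v : V) :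
    2 * R0 len + oddN len + 1 ≤
      lab len cyc pos v + lab len cyc pos (s v) + max 1 (oddN len) ∧
    lab len cyc pos v + lab len cyc pos (s v) ≤
      2 * R0 len + oddN len + 1 + max 1 (oddN len) := by
  have hp := hpos v
  have hl := hlen (cyc v)
  have hs := hstep v
  have hc := hcyc v
  by_cases hodd : len (cyc v) % 2 = 1
  · have hg := g_mid len hodd hlen
    by_cases h0 : pos v = 0
    · -- from the middle vertex to the first side
      have e1 : lab len cyc pos v = R0 len + oddN len - mid len (cyc v) :=
        lab_mid len cyc pos hodd h0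
      have hs' : pos (s v) = 1 := by rw [hs, if_neg (by omega), h0]
      have e2 : lab len cyc pos (s v) = g len true (cyc v) 0 := by
        unfold lab
        rw [hc, hs', if_neg (by omega), if_pos (by omega), hodd]
      rw [e1, e2]
      omega
    · by_cases hlast : pos v + 1 = len (cyc v)
      · -- from the second side to the middle vertex
        have hs' : pos (s v) = 0 := by rw [hs, if_pos hlast]
        have e2 : lab len cyc pos (s v) = R0 len + oddN len - mid len (cyc v) := by
          rw [← hc]
          exact lab_mid len cyc pos (by rw [hc]; exact hodd) hs'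
        have e1 : lab len cyc pos v = g len false (cyc v) 0 := by
          unfold lab
          rw [if_neg (by omega), if_neg (by omega)]
          congr 1
          omega
        rw [e1, e2]
        omega
      · have hs' : pos (s v) = pos v + 1 := by rw [hs, if_neg hlast]
        by_cases hA : pos v + 1 - 1 < len (cyc v) / 2
        · -- first side
          have e1 : lab len cyc pos v = g len true (cyc v) (pos v - 1) := by
            unfold lab
            rw [if_neg (by omega), if_pos (by omega), hodd]
          have e2 : lab len cyc pos (s v) = g len true (cyc v) (pos v - 1 + 1) := by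
            unfold lab
            rw [hc, hs', if_neg (by omega), if_pos (by omega), hodd]
            congr 1
            omega
          have := g_step len true (c := cyc v) (r := pos v - 1) (by omega)
          rw [e1, e2]
          exact this
        · by_cases hB : pos v = len (cyc v) / 2
          · have e1 : lab len cyc pos v = g len true (cyc v) (len (cyc v) / 2 - 1) := by
              unfold lab
              rw [if_neg (by omega), if_pos (by omega), hodd]
              congr 1
              omega
            have e2 : lab len cyc pos (s v) = g len false (cyc v) (len (cyc v) / 2 - 1) := by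
              unfold lab
              rw [hc, hs', if_neg (by omega), if_neg (by omega), hodd]
              congr 1
              omega
            have := g_cross len (c := cyc v) (r := len (cyc v) / 2 - 1) (by omega)
            rw [e1, e2]
            exact this
          · have e1 : lab len cyc pos v =
                g len false (cyc v) (2 * (len (cyc v) / 2) - 1 - pos v + 1) := by
              unfold lab
              rw [if_neg (by omega), if_neg (by omega), hodd]
              congr 1
              omega
            have e2 : lab len cyc pos (s v) =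
                g len false (cyc v) (2 * (len (cyc v) / 2) - 1 - pos v) := by
              unfold lab
              rw [hc, hs', if_neg (by omega), if_neg (by omega), hodd]
              congr 1
            have := g_step len false (c := cyc v)
              (r := 2 * (len (cyc v) / 2) - 1 - pos v) (by omega)
            rw [e1, e2]
            omega
  · have heven : len (cyc v) % 2 = 0 := by omega
    by_cases hlast : pos v + 1 = len (cyc v)
    · have hs' : pos (s v) = 0 := by rw [hs, if_pos hlast]
      have e1 : lab len cyc pos v = g len false (cyc v) 0 := by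
        unfold lab
        rw [if_neg (by omega), if_neg (by omega), heven]
        congr 1
        omega
      have e2 : lab len cyc pos (s v) = g len true (cyc v) 0 := by
        unfold lab
        rw [hc, hs', if_neg (by omega), if_pos (by omega), heven]
      have := g_cross len (c := cyc v) (r := 0) (by omega)
      rw [e1, e2]
      omega
    · have hs' : pos (s v) = pos v + 1 := by rw [hs, if_neg hlast]
      by_cases hA : pos v + 1 < len (cyc v) / 2
      · have e1 : lab len cyc pos v = g len true (cyc v) (pos v) := by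
          unfold lab
          rw [if_neg (by omega), if_pos (by omega), heven]
          rfl
        have e2 : lab len cyc pos (s v) = g len true (cyc v) (pos v + 1) := by
          unfold lab
          rw [hc, hs', if_neg (by omega), if_pos (by omega), heven]
          rfl
        have := g_step len true (c := cyc v) (r := pos v) (by omega)
        rw [e1, e2]
        exact this
      · by_cases hB : pos v + 1 = len (cyc v) / 2
        · have e1 : lab len cyc pos v = g len true (cyc v) (len (cyc v) / 2 - 1) := by
            unfold lab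
            rw [if_neg (by omega), if_pos (by omega), heven]
            congr 1
            omega
          have e2 : lab len cyc pos (s v) = g len false (cyc v) (len (cyc v) / 2 - 1) := by
            unfold lab
            rw [hc, hs', if_neg (by omega), if_neg (by omega), heven]
            congr 1
            omega
          have := g_cross len (c := cyc v) (r := len (cyc v) / 2 - 1) (by omega)
          rw [e1, e2]
          exact this
        · have e1 : lab len cyc pos v =
              g len false (cyc v) (2 * (len (cyc v) / 2) - 1 - (pos v + 1) + 1) := by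
            unfold lab
            rw [if_neg (by omega), if_neg (by omega), heven]
            congr 1
            omega
          have e2 : lab len cyc pos (s v) =
              g len false (cyc v) (2 * (len (cyc v) / 2) - 1 - (pos v + 1)) := by
            unfold lab
            rw [hc, hs', if_neg (by omega), if_neg (by omega), heven]
            congr 1
          have := g_step len false (c := cyc v)
            (r := 2 * (len (cyc v) / 2) - 1 - (pos v + 1)) (by omega)
          rw [e1, e2]
          omega

omit [LinearOrder C] in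
theorem card_eq (hcard : Fintype.card V = ∑ c, len c) :
    Fintype.card V = 2 * R0 len + oddN len := by
  rw [hcard]
  unfold R0 oddN
  rw [Finset.card_filter, Finset.mul_sum, ← Finset.sum_add_distrib]
  refine Finset.sum_congr rfl fun c _ => ?_
  split_ifs <;> omega

/-- `f` is a bijection from the vertex set onto `{1, ..., n}`, `n` the number of vertices. -/
def IsLabeling {V : Type} [Fintype V] (f : V → ℕ) : Prop :=
  Set.BijOn f Set.univ (Set.Icc 1 (Fintype.card V))

theorem isLabeling_of_inj {V : Type} [Fintype V] (f : V → ℕ) (h1 : Function.Injective f)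
    (h2 : ∀ v, 1 ≤ f v ∧ f v ≤ Fintype.card V) : IsLabeling f := by
  refine ⟨fun v _ => h2 v, h1.injOn, ?_⟩
  have h3 : univ.image f = Finset.Icc 1 (Fintype.card V) := by
    apply Finset.eq_of_subset_of_card_le
    · intro x hx
      obtain ⟨v, _, rfl⟩ := Finset.mem_image.mp hx
      rw [Finset.mem_Icc]
      exact h2 v
    · rw [Finset.card_image_of_injective _ h1, Nat.card_Icc, Finset.card_univ]
      omega
  intro x hx
  have : x ∈ univ.image f := by
    rw [h3, Finset.mem_Icc]
    exact hx
  obtain ⟨v, _, rfl⟩ := Finset.mem_image.mp this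
  exact ⟨v, Set.mem_univ _, rfl⟩

theorem upper (hlen : ∀ c, len c ≠ 1) (hpos : ∀ v, pos v < len (cyc v))
    (hinj : ∀ u v, cyc u = cyc v → pos u = pos v → u = v)
    (hcard : Fintype.card V = ∑ c, len c) (hcyc : ∀ v, cyc (s v) = cyc v)
    (hstep : ∀ v, pos (s v) = if pos v + 1 = len (cyc v) then 0 else pos v + 1) :
    ∃ f : V → ℕ, IsLabeling f ∧ ∀ v,
      Fintype.card V + 1 ≤ f v + f (s v) + max 1 (oddN len) ∧
      f v + f (s v) ≤ Fintype.card V + 1 + max 1 (oddN len) := by
  have hn := card_eq len hcard
  refine ⟨lab len cyc pos, isLabeling_of_inj _ (lab_inj len cyc pos hpos hinj) fun v => ?_,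
    fun v => ?_⟩
  · rw [hn]
    exact lab_range len cyc pos (hpos v)
  · rw [hn]
    exact lab_edge len cyc pos s hlen hpos hcyc hstep v

/-- The lower bound for the largest sum. -/
theorem lower (hpos : ∀ v, pos v < len (cyc v)) (hlen : ∀ c, len c ≠ 1)
    (hinj : ∀ u v, cyc u = cyc v → pos u = pos v → u = v)
    (hcard : Fintype.card V = ∑ c, len c) (hcyc : ∀ v, cyc (s v) = cyc v)
    (hstep : ∀ v, pos (s v) = if pos v + 1 = len (cyc v) then 0 else pos v + 1)
    (hs : Function.Injective s) (hV : 0 < Fintype.card V)
    (f : V → ℕ) (hf : IsLabeling f) :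
    ∃ v, Fintype.card V + 1 + oddN len ≤ f v + f (s v) := by
  classical
  by_contra hcon
  push Not at hcon
  have hn := card_eq len hcard
  have hne : ∀ v, s v ≠ v := by
    intro v hv
    have h1 := hstep v
    rw [hv] at h1
    have h2 := hpos v
    have h3 := hlen (cyc v)
    split_ifs at h1 <;> omega
  have hfinj : Function.Injective f := fun a b h => hf.injOn (Set.mem_univ _) (Set.mem_univ _) h
  let T : Finset V := univ.filter fun v => R0 len + oddN len ≤ f v
  have hind : ∀ v ∈ T, s v ∉ T := by
    intro v hv hsv
    have h1 : R0 len + oddN len ≤ f v := (mem_filter.mp hv).2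
    have h2 : R0 len + oddN len ≤ f (s v) := (mem_filter.mp hsv).2
    have h3 := hcon v
    have h4 : f v ≠ f (s v) := fun h => hne v (hfinj h).symm
    omega
  have hT : T.card = R0 len + 1 := by
    have himg : T.image f = Finset.Icc (R0 len + oddN len) (Fintype.card V) := by
      ext x
      rw [mem_image, Finset.mem_Icc]
      constructor
      · rintro ⟨v, hv, rfl⟩
        exact ⟨(mem_filter.mp hv).2, (hf.mapsTo (Set.mem_univ v)).2⟩
      · rintro ⟨h1, h2⟩
        obtain ⟨v, _, hv⟩ := hf.surjOn (show x ∈ Set.Icc 1 (Fintype.card V) from ⟨by omega, h2⟩)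
        exact ⟨v, mem_filter.mpr ⟨mem_univ _, by rw [hv]; exact h1⟩, hv⟩
    rw [← Finset.card_image_of_injective T hfinj, himg, Nat.card_Icc]
    omega
  have hcyc_le : ∀ c, (T.filter fun v => cyc v = c).card ≤ len c / 2 := by
    intro c
    let A := T.filter fun v => cyc v = c
    have hdisj : Disjoint A (A.image s) := by
      rw [Finset.disjoint_left]
      intro v hv hv'
      obtain ⟨u, hu, rfl⟩ := mem_image.mp hv'
      exact hind u (mem_filter.mp hu).1 (mem_filter.mp hv).1
    have hsub : ∀ v ∈ A ∪ A.image s, pos v ∈ range (len c) := by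
      intro v hv
      rw [mem_range]
      rcases mem_union.mp hv with h | h
      · have := (mem_filter.mp h).2
        rw [← this]; exact hpos v
      · obtain ⟨u, hu, rfl⟩ := mem_image.mp h
        have := (mem_filter.mp hu).2
        rw [← this, ← hcyc u]; exact hpos _
    have hcycA : ∀ v ∈ A ∪ A.image s, cyc v = c := by
      intro v hv
      rcases mem_union.mp hv with h | h
      · exact (mem_filter.mp h).2
      · obtain ⟨u, hu, rfl⟩ := mem_image.mp h
        rw [hcyc u]; exact (mem_filter.mp hu).2
    have h1 : (A ∪ A.image s).card ≤ len c := by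
      have := Finset.card_le_card_of_injOn pos hsub (fun a ha b hb hab => by
        exact hinj a b ((hcycA a ha).trans (hcycA b hb).symm) hab)
      rwa [card_range] at this
    rw [Finset.card_union_of_disjoint hdisj, Finset.card_image_of_injective _ hs] at h1
    show A.card ≤ len c / 2
    omega
  have hsum : T.card = ∑ c, (T.filter fun v => cyc v = c).card :=
    Finset.card_eq_sum_card_fiberwise (fun v _ => Finset.mem_coe.mpr (mem_univ (cyc v)))
  have : T.card ≤ R0 len := by
    rw [hsum]
    exact Finset.sum_le_sum fun c _ => hcyc_le c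
  omega

/-- The second lower bound. -/
theorem lower_one {s : V → V} (hs : Function.Bijective s) {v0 : V} (hv0 : s (s v0) ≠ v0)
    (f : V → ℕ) (hf : IsLabeling f) : ∃ v, Fintype.card V + 1 + 1 ≤ f v + f (s v) := by
  classical
  by_contra hcon
  push Not at hcon
  have hfinj : Function.Injective f := fun a b h => hf.injOn (Set.mem_univ _) (Set.mem_univ _) h
  have himg : univ.image f = Finset.Icc 1 (Fintype.card V) := by
    ext x
    rw [mem_image, Finset.mem_Icc]
    constructor
    · rintro ⟨v, _, rfl⟩
      exact hf.mapsTo (Set.mem_univ v)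
    · rintro ⟨h1, h2⟩
      obtain ⟨v, _, hv⟩ := hf.surjOn (show x ∈ Set.Icc 1 (Fintype.card V) from ⟨h1, h2⟩)
      exact ⟨v, mem_univ _, hv⟩
  have h1 : ∑ v, f v = ∑ x ∈ Finset.Icc 1 (Fintype.card V), x := by
    rw [← himg, Finset.sum_image fun a _ b _ h => hfinj h]
  have h2 : (∑ x ∈ Finset.Icc 1 (Fintype.card V), x) * 2 =
      Fintype.card V * (Fintype.card V + 1) := by
    have h3 := Finset.sum_range_id_mul_two (Fintype.card V + 1)
    have h4 : ∑ x ∈ Finset.Icc 1 (Fintype.card V), x = ∑ x ∈ range (Fintype.card V + 1), x := by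
      rw [Finset.sum_range_succ']
      simp only [add_zero]
      rw [Finset.range_eq_Ico, Finset.sum_Ico_add' (fun x => x) 0 (Fintype.card V) 1]
      rfl
    rw [h4, h3, Nat.add_sub_cancel, mul_comm]
  have h5 : ∑ v, f (s v) = ∑ v, f v := hs.sum_comp (fun v => f v)
  have h6 : ∑ v, (f v + f (s v)) = ∑ _v : V, (Fintype.card V + 1) := by
    rw [Finset.sum_add_distrib, h5, Finset.sum_const, Finset.card_univ, smul_eq_mul, ← h2, h1]
    ring
  have h7 : ∀ v, f v + f (s v) = Fintype.card V + 1 := by
    intro v
    have h8 : ∀ v ∈ univ, f v + f (s v) ≤ Fintype.card V + 1 := fun v _ => by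
      have := hcon v; omega
    exact (Finset.sum_eq_sum_iff_of_le h8).mp h6 v (mem_univ _)
  have h9 := h7 v0
  have h10 := h7 (s v0)
  exact hv0 (hfinj (by omega))

/-- The complementary labelling. -/
theorem compl_labeling {V : Type} [Fintype V] {f : V → ℕ} (hf : IsLabeling f) :
    IsLabeling fun v => Fintype.card V + 1 - f v := by
  refine isLabeling_of_inj _ ?_ ?_
  · intro a b h
    have h1 := hf.mapsTo (Set.mem_univ a)
    have h2 := hf.mapsTo (Set.mem_univ b)
    have h3 : Fintype.card V + 1 - f a = Fintype.card V + 1 - f b := h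
    rw [Set.mem_Icc] at h1 h2
    exact hf.injOn (Set.mem_univ _) (Set.mem_univ _) (by omega)
  · intro v
    have h1 := hf.mapsTo (Set.mem_univ v)
    rw [Set.mem_Icc] at h1
    omega

end Abstract


/-! ### Neighbourhood sums -/

/-- The sum of the labels of the vertices adjacent to `v`. -/
noncomputable def nsum {V : Type} [Fintype V] (G : SimpleGraph V) (f : V → ℕ) (v : V) : ℕ := by
  classical exact ∑ u ∈ univ.filter (fun u => G.Adj v u), f u

/-- `NS(f)`, the largest neighbourhood sum. -/
noncomputable def NSmax {V : Type} [Fintype V] (G : SimpleGraph V) (f : V → ℕ) : ℕ :=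
  univ.sup (nsum G f)

/-- `NS⁻(f)`, the smallest neighbourhood sum. -/
noncomputable def NSmin {V : Type} [Fintype V] (G : SimpleGraph V) (f : V → ℕ) : ℕ :=
  sInf (Set.range (nsum G f))

/-- The disjoint union of the cycles of lengths `t i` (each at least three); the cycle of length
`t i` is the path `0, 1, ..., t i - 1` together with the edge between its two ends. -/
def cycles {k : ℕ} (t : Fin k → ℕ) : SimpleGraph (Σ i : Fin k, Fin (t i)) where
  Adj x y := x.1 = y.1 ∧ x.2.val ≠ y.2.val ∧ (x.2.val + 1 = y.2.val ∨ y.2.val + 1 = x.2.val ∨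
    (x.2.val = 0 ∧ y.2.val + 1 = t y.1) ∨ (y.2.val = 0 ∧ x.2.val + 1 = t x.1))
  symm := ⟨fun x y h => ⟨h.1.symm, h.2.1.symm, by
    rcases h.2.2 with h | h | h | h
    · exact Or.inr (Or.inl h)
    · exact Or.inl h
    · exact Or.inr (Or.inr (Or.inr h))
    · exact Or.inr (Or.inr (Or.inl h))⟩⟩
  loopless := ⟨fun x h => h.2.1 rfl⟩

section Concrete

variable {k : ℕ} {t : Fin k → ℕ}

theorem sig_ext {x y : Σ i : Fin k, Fin (t i)} (h1 : x.1 = y.1) (h2 : x.2.val = y.2.val) :
    x = y := by
  obtain ⟨i, a⟩ := x
  obtain ⟨j, b⟩ := y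
  change i = j at h1
  subst h1
  change a.val = b.val at h2
  rw [Fin.ext h2]

/-- The next vertex on the cycle. -/
def nxt (x : Σ i : Fin k, Fin (t i)) : Σ i : Fin k, Fin (t i) :=
  ⟨x.1, ⟨if x.2.val + 1 = t x.1 then 0 else x.2.val + 1, by
    have := x.2.isLt
    split_ifs <;> omega⟩⟩

theorem nxt_fst (x : Σ i : Fin k, Fin (t i)) : (nxt x).1 = x.1 := rfl

theorem nxt_val (x : Σ i : Fin k, Fin (t i)) :
    (nxt x).2.val = if x.2.val + 1 = t x.1 then 0 else x.2.val + 1 := rfl

theorem nxt_inj : Function.Injective (nxt (k := k) (t := t)) := by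
  intro x y h
  have h0 : (nxt x).1 = (nxt y).1 := by rw [h]
  have h1 : x.1 = y.1 := h0
  have h2 : (nxt x).2.val = (nxt y).2.val := by rw [h]
  rw [nxt_val, nxt_val] at h2
  refine sig_ext h1 ?_
  have := x.2.isLt
  have := y.2.isLt
  have h3 : t x.1 = t y.1 := by rw [h1]
  split_ifs at h2 <;> omega

theorem nxt_bij : Function.Bijective (nxt (k := k) (t := t)) :=
  Finite.injective_iff_bijective.mp nxt_inj

/-- Two steps on the cycle. -/
def nx2 (x : Σ i : Fin k, Fin (t i)) : Σ i : Fin k, Fin (t i) := nxt (nxt x)

theorem nx2_fst (x : Σ i : Fin k, Fin (t i)) : (nx2 x).1 = x.1 := rfl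

theorem nx2_val (h3 : ∀ i, 3 ≤ t i) (x : Σ i : Fin k, Fin (t i)) :
    (nx2 x).2.val = if x.2.val + 2 < t x.1 then x.2.val + 2 else x.2.val + 2 - t x.1 := by
  have h := nxt_val (nxt x)
  rw [nxt_val x] at h
  have e : t (nxt x).1 = t x.1 := rfl
  have := h3 x.1
  have := x.2.isLt
  show (nxt (nxt x)).2.val = _
  rw [h]
  split_ifs <;> omega

theorem nx2_bij : Function.Bijective (nx2 (k := k) (t := t)) := nxt_bij.comp nxt_bij

theorem nsum_nxt (h3 : ∀ i, 3 ≤ t i) (f : (Σ i : Fin k, Fin (t i)) → ℕ)
    (x : Σ i : Fin k, Fin (t i)) : nsum (cycles t) f (nxt x) = f x + f (nx2 x) := by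
  classical
  have h3x := h3 x.1
  have hx := x.2.isLt
  have hv := nxt_val x
  have hv2 := nx2_val h3 x
  have e1 : t (nxt x).1 = t x.1 := rfl
  have e2 : t (nx2 x).1 = t x.1 := rfl
  have hne : x ≠ nx2 x := by
    intro h
    have h1 : x.2.val = (nx2 x).2.val := by rw [← h]
    rw [hv2] at h1
    split_ifs at h1 <;> omega
  have hset : (univ.filter fun u => (cycles t).Adj (nxt x) u) = {x, nx2 x} := by
    ext y
    rw [mem_filter, mem_insert, mem_singleton]
    constructor
    · rintro ⟨_, h1, h2, h4⟩
      have h1' : x.1 = y.1 := h1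
      have hty : t x.1 = t y.1 := by rw [h1']
      have hy := y.2.isLt
      rw [hv] at h2 h4
      by_cases hxy : x.2.val = y.2.val
      · exact Or.inl (sig_ext h1' hxy).symm
      · right
        refine (sig_ext (x := nx2 x) h1' ?_).symm
        rw [hv2]
        by_cases ha : x.2.val + 1 = t x.1
        · rw [if_pos ha] at h4
          rw [if_neg (by omega)]
          omega
        · rw [if_neg ha] at h4
          by_cases hb : x.2.val + 2 < t x.1
          · rw [if_pos hb]
            omega
          · rw [if_neg hb]
            omega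
    · rintro (rfl | rfl)
      · refine ⟨mem_univ _, rfl, ?_, ?_⟩
        · rw [hv]
          split_ifs <;> omega
        · rw [hv]
          split_ifs <;> omega
      · refine ⟨mem_univ _, rfl, ?_, ?_⟩
        · rw [hv, hv2]
          split_ifs <;> omega
        · rw [hv, hv2]
          split_ifs <;> omega
  unfold nsum
  have : (univ.filter fun u => (cycles t).Adj (nxt x) u) = {x, nx2 x} := hset
  convert Finset.sum_pair (f := f) hne using 2

/-- The cycle of the squared rotation through a vertex. -/
def cyc (x : Σ i : Fin k, Fin (t i)) : Lex (Fin k × Bool) :=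
  toLex (x.1, if t x.1 % 2 = 1 then false else decide (x.2.val % 2 = 1))

/-- The position of a vertex on its cycle of the squared rotation. -/
def pos (x : Σ i : Fin k, Fin (t i)) : ℕ :=
  if t x.1 % 2 = 1 then (if x.2.val % 2 = 0 then x.2.val / 2 else (x.2.val + t x.1) / 2)
  else x.2.val / 2

/-- The lengths of the cycles of the squared rotation. -/
def len (t : Fin k → ℕ) (c : Lex (Fin k × Bool)) : ℕ :=
  if t (ofLex c).1 % 2 = 1 then (if (ofLex c).2 = false then t (ofLex c).1 else 0)
  else t (ofLex c).1 / 2

theorem len_ne_one (h3 : ∀ i, 3 ≤ t i) (c : Lex (Fin k × Bool)) : len t c ≠ 1 := by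
  have := h3 (ofLex c).1
  unfold len
  split_ifs <;> omega

theorem len_cyc (x : Σ i : Fin k, Fin (t i)) :
    len t (cyc x) = if t x.1 % 2 = 1 then t x.1 else t x.1 / 2 := by
  unfold len cyc
  simp only [ofLex_toLex]
  split_ifs <;> simp_all

theorem pos_lt (x : Σ i : Fin k, Fin (t i)) : pos x < len t (cyc x) := by
  have := x.2.isLt
  rw [len_cyc]
  unfold pos
  split_ifs <;> omega

theorem pos_inj (x y : Σ i : Fin k, Fin (t i)) (h1 : cyc x = cyc y) (h2 : pos x = pos y) :
    x = y := by
  have e := congrArg ofLex h1
  unfold cyc at e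
  rw [ofLex_toLex, ofLex_toLex, Prod.mk.injEq] at e
  obtain ⟨e1, e2⟩ := e
  refine sig_ext e1 ?_
  have hx := x.2.isLt
  have hy := y.2.isLt
  have hty : t x.1 = t y.1 := by rw [e1]
  unfold pos at h2
  by_cases ho : t y.1 % 2 = 1
  · have ho' : t x.1 % 2 = 1 := by omega
    rw [if_pos ho, if_pos ho'] at h2
    split_ifs at h2 <;> omega
  · have ho' : ¬ t x.1 % 2 = 1 := by omega
    rw [if_neg ho, if_neg ho'] at h2
    rw [if_neg ho, if_neg ho'] at e2
    have e3 : (x.2.val % 2 = 1) ↔ (y.2.val % 2 = 1) := by simpa using e2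
    omega

theorem cyc_nx2 (h3 : ∀ i, 3 ≤ t i) (x : Σ i : Fin k, Fin (t i)) : cyc (nx2 x) = cyc x := by
  have hv := nx2_val h3 x
  have := h3 x.1
  have hx := x.2.isLt
  show toLex (x.1, if t x.1 % 2 = 1 then false else decide ((nx2 x).2.val % 2 = 1)) =
    toLex (x.1, if t x.1 % 2 = 1 then false else decide (x.2.val % 2 = 1))
  rw [hv]
  congr 2
  by_cases ho : t x.1 % 2 = 1
  · rw [if_pos ho, if_pos ho]
  · rw [if_neg ho, if_neg ho]
    congr 1
    apply propext
    split_ifs <;> omega

theorem pos_nx2 (h3 : ∀ i, 3 ≤ t i) (x : Σ i : Fin k, Fin (t i)) :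
    pos (nx2 x) = if pos x + 1 = len t (cyc x) then 0 else pos x + 1 := by
  have hv := nx2_val h3 x
  have := h3 x.1
  have hx := x.2.isLt
  rw [len_cyc]
  show (if t x.1 % 2 = 1 then (if (nx2 x).2.val % 2 = 0 then (nx2 x).2.val / 2
    else ((nx2 x).2.val + t x.1) / 2) else (nx2 x).2.val / 2) = _
  unfold pos
  rw [hv]
  by_cases ho : t x.1 % 2 = 1
  · rw [if_pos ho, if_pos ho, if_pos ho]
    split_ifs <;> omega
  · rw [if_neg ho, if_neg ho, if_neg ho]
    split_ifs <;> omega

theorem card_len (t : Fin k → ℕ) : ∑ i, t i = ∑ c, len t c := by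
  have h : ∑ c, len t c = ∑ c : Fin k × Bool, len t (toLex c) :=
    Fintype.sum_equiv ofLex _ _ fun _ => rfl
  rw [h, Fintype.sum_prod_type]
  refine Finset.sum_congr rfl fun i _ => ?_
  rw [Fintype.sum_bool]
  unfold len
  simp only [ofLex_toLex]
  by_cases ho : t i % 2 = 1
  · simp [ho]
  · simp only [ho, if_false]
    omega

theorem oddN_len (t : Fin k → ℕ) :
    oddN (len t) = ∑ i, if t i % 2 = 1 then 1 else if t i % 4 = 2 then 2 else 0 := by
  unfold oddN
  rw [Finset.card_filter]
  have h : (∑ c, if len t c % 2 = 1 then 1 else 0) =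
      ∑ c : Fin k × Bool, if len t (toLex c) % 2 = 1 then 1 else 0 :=
    Fintype.sum_equiv ofLex _ _ fun _ => rfl
  rw [h, Fintype.sum_prod_type]
  refine Finset.sum_congr rfl fun i _ => ?_
  rw [Fintype.sum_bool]
  unfold len
  simp only [ofLex_toLex]
  by_cases ho : t i % 2 = 1
  · simp [ho]
  · simp only [ho, if_false]
    split_ifs <;> omega

end Concrete

/-- The number `M` for the cycle lengths `t`: the sum of `1` for every odd length and `2` for every
length congruent to `2` modulo `4`, but at least `1`. -/
def M {k : ℕ} (t : Fin k → ℕ) : ℕ :=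
  max 1 (∑ i, if t i % 2 = 1 then 1 else if t i % 4 = 2 then 2 else 0)

/-- Every labelling has a neighbourhood sum of at least `n + 1 + M`. -/
theorem exists_large {k : ℕ} {t : Fin k → ℕ} (h3 : ∀ i, 3 ≤ t i) (h4 : ∃ i, t i ≠ 4)
    (f : (Σ i : Fin k, Fin (t i)) → ℕ) (hf : IsLabeling f) :
    ∃ v, ∑ i, t i + 1 + M t ≤ f v + f (nx2 v) := by
  have hcardV : Fintype.card (Σ i : Fin k, Fin (t i)) = ∑ i, t i := by simp
  obtain ⟨i0, hi0⟩ := h4
  have h3i := h3 i0
  rcases Nat.lt_or_ge 0 (∑ i, if t i % 2 = 1 then 1 else if t i % 4 = 2 then 2 else 0) with h | h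
  · have hpos : 0 < Fintype.card (Σ i : Fin k, Fin (t i)) :=
      Fintype.card_pos_iff.mpr ⟨⟨i0, ⟨0, by omega⟩⟩⟩
    obtain ⟨v, hv⟩ := lower (len t) cyc pos nx2 pos_lt (len_ne_one h3) pos_inj
      (by rw [hcardV]; exact card_len t) (cyc_nx2 h3) (pos_nx2 h3) nx2_bij.1 hpos f hf
    refine ⟨v, ?_⟩
    rw [hcardV, oddN_len] at hv
    unfold M
    omega
  · let v0 : Σ i : Fin k, Fin (t i) := ⟨i0, ⟨0, by omega⟩⟩
    have hv0 : nx2 (nx2 v0) ≠ v0 := by
      intro hh
      have e1 := nx2_val h3 v0
      have e2 := nx2_val h3 (nx2 v0)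
      rw [hh] at e2
      have e3 : v0.2.val = 0 := rfl
      have e4 : t v0.1 = t i0 := rfl
      have e5 : t (nx2 v0).1 = t i0 := rfl
      split_ifs at e1 e2 <;> omega
    obtain ⟨v, hv⟩ := lower_one nx2_bij hv0 f hf
    refine ⟨v, ?_⟩
    rw [hcardV] at hv
    unfold M
    omega

/-- **Main theorem.**  Let `G` be the disjoint union of the cycles `C_{t i}`, all `t i ≥ 3`, not
all of them equal to `4` (in particular whenever the lengths are not all equal), let `n` be the
number of vertices and `M = max 1 o`, where `o` counts each odd length once and each length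
congruent to `2` modulo `4` twice.  Then `NS(G) = n + 1 + M`, `NS⁻(G) = n + 1 - M` and
`NS^sp(G) = 2 M`. -/
theorem result {k : ℕ} (t : Fin k → ℕ) (h3 : ∀ i, 3 ≤ t i) (h4 : ∃ i, t i ≠ 4) :
    IsLeast {m : ℕ | ∃ f, IsLabeling f ∧ NSmax (cycles t) f = m} (∑ i, t i + 1 + M t) ∧
    IsGreatest {m : ℕ | ∃ f, IsLabeling f ∧ NSmin (cycles t) f = m} (∑ i, t i + 1 - M t) ∧
    IsLeast {m : ℕ | ∃ f, IsLabeling f ∧ NSmax (cycles t) f - NSmin (cycles t) f = m}
      (2 * M t) := by
  have hcardV : Fintype.card (Σ i : Fin k, Fin (t i)) = ∑ i, t i := by simp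
  have hM1 : 1 ≤ M t := le_max_left _ _
  -- lower bound for the maximum
  have hA : ∀ f : (Σ i : Fin k, Fin (t i)) → ℕ, IsLabeling f →
      ∑ i, t i + 1 + M t ≤ NSmax (cycles t) f := by
    intro f hf
    obtain ⟨v, hv⟩ := exists_large h3 h4 f hf
    rw [← nsum_nxt h3] at hv
    exact hv.trans (Finset.le_sup (f := nsum (cycles t) f) (mem_univ (nxt v)))
  -- upper bound for the minimum
  have hB : ∀ f : (Σ i : Fin k, Fin (t i)) → ℕ, IsLabeling f →
      NSmin (cycles t) f + M t ≤ ∑ i, t i + 1 := by
    intro f hf
    obtain ⟨v, hv⟩ := exists_large h3 h4 _ (compl_labeling hf)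
    rw [hcardV] at hv
    have h1 := hf.mapsTo (Set.mem_univ v)
    have h2 := hf.mapsTo (Set.mem_univ (nx2 v))
    rw [Set.mem_Icc, hcardV] at h1 h2
    have h5 : NSmin (cycles t) f ≤ nsum (cycles t) f (nxt v) :=
      Nat.sInf_le ⟨nxt v, rfl⟩
    rw [nsum_nxt h3] at h5
    omega
  -- the labelling
  obtain ⟨f, hf, hfe⟩ := upper (len t) cyc pos nx2 (len_ne_one h3) pos_lt pos_inj
    (by rw [hcardV]; exact card_len t) (cyc_nx2 h3) (pos_nx2 h3)
  rw [hcardV, oddN_len] at hfe
  have hC : NSmax (cycles t) f ≤ ∑ i, t i + 1 + M t := by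
    refine Finset.sup_le fun w _ => ?_
    obtain ⟨v, rfl⟩ := nxt_bij.2 w
    rw [nsum_nxt h3]
    exact (hfe v).2
  have hD : ∑ i, t i + 1 ≤ NSmin (cycles t) f + M t := by
    obtain ⟨i0, hi0⟩ := h4
    have h3i := h3 i0
    have hne : (Set.range (nsum (cycles t) f)).Nonempty :=
      ⟨_, ⟨⟨i0, ⟨0, by omega⟩⟩, rfl⟩⟩
    obtain ⟨w, hw⟩ := Nat.sInf_mem hne
    obtain ⟨v, rfl⟩ := nxt_bij.2 w
    rw [nsum_nxt h3] at hw
    have h6 : NSmin (cycles t) f = f v + f (nx2 v) := hw.symm
    rw [h6]
    exact (hfe v).1
  have hE : NSmax (cycles t) f = ∑ i, t i + 1 + M t := le_antisymm hC (hA f hf)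
  have hF : NSmin (cycles t) f = ∑ i, t i + 1 - M t := by
    have := hB f hf
    omega
  have hG : NSmin (cycles t) f + M t = ∑ i, t i + 1 := le_antisymm (hB f hf) hD
  refine ⟨⟨⟨f, hf, hE⟩, ?_⟩, ⟨⟨f, hf, hF⟩, ?_⟩, ⟨⟨f, hf, ?_⟩, ?_⟩⟩
  · rintro m ⟨f', hf', rfl⟩
    exact hA f' hf'
  · rintro m ⟨f', hf', rfl⟩
    have := hB f' hf'
    omega
  · rw [hE]
    omega
  · rintro m ⟨f', hf', rfl⟩
    have h7 := hA f' hf'
    have h8 := hB f' hf'
    omega

end Pool.Agent.Results.MP_af65a2_co.UnequalCycles
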